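import Mathlib
import Pool.Agent.Helper11.Iso.Piece

/-!
# Numerically trivial classes paired with words: all contractions vanish
-/

universe u v w t

open CategoryTheory Finset

namespace Pool.Agent.Helper16.Iso

open Pool.Agent.Helper10 SmProjVar SPre Pool.Agent.Helper10.GIT Pool.Agent.Helper11.Iso

section Block

variable {m : ℕ} {n s e : Fin m → ℕ} {N : ℕ} {Ω : Type*} [Field Ω]

/-- all the labellings -/
def labEquiv' (σ : ∀ t, Fin (e t) × Fin (s t) ≃ Fin N) :
    (Fin N → Idx n) ≃ (∀ t, Fin (e t) → Fin (s t) → Fin (n t)) where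
  toFun W t k i := W (σ t (k, i)) t
  invFun w j t := w t ((σ t).symm j).1 ((σ t).symm j).2
  left_inv W := by
    funext j t
    simp
  right_inv w := by
    funext t k i
    simp

/-- `N` tensors, whose slots are contracted with the forms `β t`, in an order given by `σ t` -/
def blockForm (β : ∀ t, (Fin (s t) → Fin (n t)) → Ω) (σ : ∀ t, Fin (e t) × Fin (s t) ≃ Fin N)
    (z : Fin N → Idx n → Ω) : Ω :=
  ∑ W : Fin N → Idx n, (∏ t, ∏ k, β t (fun i => W (σ t (k, i)) t)) * ∏ r, z r (W r)

/-- a multilinear form which vanishes on a set vanishes on its span -/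
lemma multilinear_span {ι V : Type*} [Fintype ι] [DecidableEq ι] [AddCommGroup V] [Module Ω V]
    (f : MultilinearMap Ω (fun _ : ι => V) Ω) (S : Set V) (h : ∀ z : ι → V, (∀ i, z i ∈ S) → f z = 0)
    (z : ι → V) (hz : ∀ i, z i ∈ Submodule.span Ω S) : f z = 0 := by
  have key : ∀ (s : Finset ι) (z : ι → V), (∀ r ∈ s, z r ∈ Submodule.span Ω S) →
      (∀ r ∉ s, z r ∈ S) → f z = 0 := by
    intro s
    induction s using Finset.induction_on with
    | empty => exact fun z _ h' => h z fun r => h' r (Finset.notMem_empty r)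
    | insert a s ha ih =>
      intro z hz hz'
      have h1 : ∀ y ∈ Submodule.span Ω S, f (Function.update z a y) = 0 := by
        intro y hy
        induction hy using Submodule.span_induction with
        | mem y hy =>
          refine ih _ (fun r hr => ?_) (fun r hr => ?_)
          · have hne : r ≠ a := fun h => ha (h ▸ hr)
            rw [Function.update_of_ne hne]
            exact hz r (Finset.mem_insert_of_mem hr)
          · by_cases hra : r = a
            · rw [hra, Function.update_self]; exact hy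
            · rw [Function.update_of_ne hra]
              exact hz' r fun h => (Finset.mem_insert.mp h).elim hra hr
        | zero => exact f.map_update_zero z a
        | add y y' _ _ hy hy' => rw [f.map_update_add, hy, hy', add_zero]
        | smul c y _ hy => rw [f.map_update_smul, hy, smul_zero]
      have h2 := h1 (z a) (hz a (Finset.mem_insert_self a s))
      rwa [Function.update_eq_self] at h2
  exact key Finset.univ z (fun r _ => hz r) (fun r hr => absurd (Finset.mem_univ r) hr)

/-- the block form as a multilinear map -/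
noncomputable def blockMulti (β : ∀ t, (Fin (s t) → Fin (n t)) → Ω)
    (σ : ∀ t, Fin (e t) × Fin (s t) ≃ Fin N) :
    MultilinearMap Ω (fun _ : Fin N => (Idx n → Ω)) Ω :=
  ∑ W : Fin N → Idx n, (∏ t, ∏ k, β t (fun i => W (σ t (k, i)) t)) •
    (MultilinearMap.mkPiAlgebra Ω (Fin N) Ω).compLinearMap fun r => LinearMap.proj (W r)

lemma blockMulti_apply (β : ∀ t, (Fin (s t) → Fin (n t)) → Ω)
    (σ : ∀ t, Fin (e t) × Fin (s t) ≃ Fin N) (z : Fin N → Idx n → Ω) :
    blockMulti β σ z = blockForm β σ z := by
  unfold blockMulti blockForm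
  rw [_root_.sum_apply]
  refine sum_congr rfl fun W _ => ?_
  rw [_root_.smul_apply, MultilinearMap.compLinearMap_apply,
    MultilinearMap.mkPiAlgebra_apply, smul_eq_mul]
  rfl

variable {A : Type*} [Ring A] [Algebra Ω A]

/-- the sum of ordered products with the coefficients of a product of forms is, up to a
sign, a product of sums of ordered products -/
lemma exists_sign_block (σ : ∀ t, Fin (e t) × Fin (s t) ≃ Fin N)
    (β : ∀ t, (Fin (s t) → Fin (n t)) → Ω)
    (sg : Fin m → Fin m → ℤ) (hs : ∀ t t', sg t t' = 1 ∨ sg t t' = -1)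
    (L : Fin N → ∀ t, Fin (n t) → A)
    (hL : ∀ j t b j' t' b', L j t b * L j' t' b' = sg t t' • (L j' t' b' * L j t b)) :
    ∃ c : ℤ, (c = 1 ∨ c = -1) ∧
      ∑ W : Fin N → Idx n, (∏ t, ∏ k, β t (fun i => W (σ t (k, i)) t)) •
        (List.ofFn fun j => (List.ofFn fun t => L j t (W j t)).prod).prod =
      c • (List.ofFn fun t => (List.ofFn fun k => ∑ v : Fin (s t) → Fin (n t), β t v •
        (List.ofFn fun i => L (σ t (k, i)) t (v i)).prod).prod).prod := by
  obtain ⟨c, hc, h⟩ := exists_sign_perm A (fun x y : Fin N × Fin m => sg x.2 y.2)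
    (fun x y => hs x.2 y.2) (pos_perm σ)
  refine ⟨c, hc, ?_⟩
  have h1 : ∀ W : Fin N → Idx n,
      (List.ofFn fun j => (List.ofFn fun t => L j t (W j t)).prod).prod =
      c • (List.ofFn fun t => (List.ofFn fun k => (List.ofFn fun i =>
        L (σ t (k, i)) t (W (σ t (k, i)) t)).prod).prod).prod := by
    intro W
    have h2 := h (fun x => L x.1 x.2 (W x.1 x.2)) (fun x y => hL _ _ _ _ _ _)
    unfold pos₁ pos₂ at h2
    simp only [List.map_flatten, List.prod_flatten, List.map_ofFn, Function.comp_def] at h2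
    exact h2
  rw [sum_congr rfl fun W _ => congrArg _ (h1 W)]
  have h2 : ∀ t, (List.ofFn fun k => ∑ v : Fin (s t) → Fin (n t), β t v •
        (List.ofFn fun i => L (σ t (k, i)) t (v i)).prod).prod =
      ∑ w : Fin (e t) → Fin (s t) → Fin (n t), (∏ k, β t (w k)) •
        (List.ofFn fun k => (List.ofFn fun i => L (σ t (k, i)) t (w k i)).prod).prod := by
    intro t
    exact ofFn_prod_sum (α := fun _ : Fin (e t) => (Fin (s t) → Fin (n t)))
      (fun _ w => β t w) (fun k w => (List.ofFn fun i => L (σ t (k, i)) t (w i)).prod)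
  simp only [h2]
  rw [ofFn_prod_sum (α := fun t : Fin m => (Fin (e t) → Fin (s t) → Fin (n t)))
    (fun t w => ∏ k, β t (w k))
    (fun t w => (List.ofFn fun k => (List.ofFn fun i => L (σ t (k, i)) t (w k i)).prod).prod),
    ← Equiv.sum_comp (labEquiv' σ), smul_sum]
  refine sum_congr rfl fun W _ => ?_
  rw [smul_comm]
  rfl

end Block

variable {k : Type u} [Field k] {K : Type t} [Field K] {Ω : Type v} [Field Ω] [Algebra K Ω]
  {P : SPre.{u, v, w, t} k K Ω}

/-- the product of the classes of the blocks -/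
noncomputable def blockClass {Y : SmProjVar k} {m : ℕ} {n s e : Fin m → ℕ}
    (β : ∀ t, (Fin (s t) → Fin (n t)) → Ω) (x : ∀ t, Fin (n t) → P.H Y) {N : ℕ}
    (σ : ∀ t, Fin (e t) × Fin (s t) ≃ Fin (N + 1)) : P.H (Y.selfProd N) :=
  (List.ofFn fun t => (List.ofFn fun k => ∑ v : Fin (s t) → Fin (n t), β t v •
    (List.ofFn fun i => P.pull (Y.projPow N (σ t (k, i))) (x t (v i))).prod).prod).prod

/-- if the contractions with a product of blocks vanish, so does the form -/
lemma blockForm_eq_zero_of {X Y : SmProjVar k} {m : ℕ} {n s e : Fin m → ℕ}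
    (β : ∀ t, (Fin (s t) → Fin (n t)) → Ω) (x : ∀ t, Fin (n t) → P.H Y)
    (hpar : ∀ t, (∀ b, x t b ∈ P.ev Y) ∨ ∀ b, x t b ∈ P.od Y) {N : ℕ}
    (σ : ∀ t, Fin (e t) × Fin (s t) ≃ Fin (N + 1))
    (h : ∀ r : ℕ → P.H (X.prod Y), (∀ j, P.rad (X.prod Y) (r j)) →
      P.contr (X.selfProd N) (Y.selfProd N) (blockClass β x σ) (P.mixPow X Y N r) = 0)
    (z : Fin (N + 1) → Idx n → Ω) (hz : ∀ r, z r ∈ P.wordSet X Y x) : blockForm β σ z = 0 := by
  classical
  choose r hr c hc using hz
  -- the parities
  have hq : ∀ t, ∃ q : Bool, ∀ b, if q then x t b ∈ P.od Y else x t b ∈ P.ev Y := by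
    intro t
    rcases hpar t with h | h
    · exact ⟨false, fun b => by simpa using h b⟩
    · exact ⟨true, fun b => by simpa using h b⟩
  choose q hq using hq
  let sg : Fin m → Fin m → ℤ := fun t t' => if q t && q t' then -1 else 1
  let L : Fin (N + 1) → ∀ t, Fin (n t) → P.H (Y.selfProd N) := fun j t b =>
    P.pull (Y.projPow N j) (x t b)
  obtain ⟨a, ha, hF⟩ := exists_sign_block (Ω := Ω) σ β sg (fun t t' => by
      by_cases h : (q t && q t') = true
      · exact .inr (if_pos h)
      · exact .inl (if_neg h)) L (by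
      intro j t b j' t' b'
      have h1 := hq t b
      have h2 := hq t' b'
      change P.pull _ _ * P.pull _ _ = (if q t && q t' then (-1 : ℤ) else 1) •
        (P.pull _ _ * P.pull _ _)
      cases hqt : q t with
      | false =>
        rw [hqt] at h1
        rw [Bool.false_and, if_neg (by simp), one_smul]
        exact P.ev_comm _ _ _ (P.pull_ev _ _ (by simpa using h1))
      | true =>
        rw [hqt] at h1
        have h1' : x t b ∈ P.od Y := by simpa using h1
        cases hqt' : q t' with
        | false =>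
          rw [hqt'] at h2
          rw [Bool.true_and, if_neg (by simp), one_smul]
          exact (P.ev_comm _ _ _ (P.pull_ev _ _ (by simpa using h2))).symm
        | true =>
          rw [hqt'] at h2
          have h2' : x t' b' ∈ P.od Y := by simpa using h2
          rw [Bool.true_and, if_pos rfl, neg_one_zsmul]
          exact P.od_anti _ _ _ (P.pull_od _ _ h1') (P.pull_od _ _ h2'))
  -- the families, indexed by natural numbers
  let J : ℕ → Fin (N + 1) := fun j => Fin.ofNat (N + 1) j
  have hJ : ∀ j : Fin (N + 1), J (j : ℕ) = j := fun j => Fin.ext (Nat.mod_eq_of_lt j.2)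
  have h0 := h (fun j => r (J j)) (fun j => hr (J j))
  have h1 : ∀ W : Fin (N + 1) → Idx n, ∏ j, z j (W j) =
      P.itr X (fun j => c (J j)) N (P.contr (X.selfProd N) (Y.selfProd N)
        ((List.ofFn fun j => (List.ofFn fun t => L j t (W j t)).prod).prod)
        (P.mixPow X Y N fun j => r (J j))) := by
    intro W
    have h2 : (List.ofFn fun j => (List.ofFn fun t => L j t (W j t)).prod).prod =
        P.extPow Y N (fun j => word x (W (J j))) := by
      rw [extPow_eq]
      congr 2
      funext j
      rw [hJ, word, map_list_prod, List.map_ofFn]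
      rfl
    rw [h2, contr_mixPow N _ _ (fun j => P.alg_le_ev _ (hr (J j)).1), itr_extPow,
      Finset.prod_range]
    refine Finset.prod_congr rfl fun j _ => ?_
    rw [hJ, hc]
  have h2 : blockForm β σ z = P.itr X (fun j => c (J j)) N (P.contr (X.selfProd N) (Y.selfProd N)
      (∑ W : Fin (N + 1) → Idx n, (∏ t, ∏ k, β t (fun i => W (σ t (k, i)) t)) •
        (List.ofFn fun j => (List.ofFn fun t => L j t (W j t)).prod).prod)
        (P.mixPow X Y N fun j => r (J j))) := by
    rw [contr_sum, map_sum]
    unfold blockForm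
    refine Finset.sum_congr rfl fun W _ => ?_
    rw [map_smul, smul_eq_mul, h1]
  change P.contr (X.selfProd N) (Y.selfProd N) (List.ofFn fun t => (List.ofFn fun k =>
        ∑ v : Fin (s t) → Fin (n t), β t v •
          (List.ofFn fun i => L (σ t (k, i)) t (v i)).prod).prod).prod _ = 0 at h0
  rw [h2, hF, contr_zsmul, h0, smul_zero, map_zero]

lemma list_prod_alg {Z : SmProjVar k} {m : ℕ} {x : Fin m → P.H Z} (hx : ∀ i, x i ∈ P.alg Z) :
    (List.ofFn x).prod ∈ P.alg Z := by
  induction m with
  | zero => rw [List.ofFn_zero, List.prod_nil]; exact P.one_mem Z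
  | succ m ih =>
    rw [List.ofFn_succ, List.prod_cons]
    exact P.mul_mem _ _ _ (hx 0) (ih fun i => hx i.succ)

/-- sums over pairs of indices -/
lemma sum_fin_two {α M : Type*} [Fintype α] [AddCommMonoid M] (F : (Fin 2 → α) → M) :
    ∑ v : Fin 2 → α, F v = ∑ a, ∑ b, F ![a, b] := by
  rw [← Fintype.sum_prod_type' (f := fun a b => F ![a, b]),
    ← Equiv.sum_comp (finTwoArrowEquiv α).symm]
  rfl

/-- the order of the slots -/
def slot {k : ℕ} (π : Equiv.Perm (Fin k)) : Fin k × Fin 2 ≃ Fin k ⊕ Fin k where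
  toFun x := if x.2 = 0 then Sum.inl (π x.1) else Sum.inr x.1
  invFun := Sum.elim (fun a => (π.symm a, 0)) (fun b => (b, 1))
  left_inv x := by
    obtain ⟨r, i⟩ := x
    fin_cases i <;> simp
  right_inv y := by
    rcases y with a | b <;> simp

lemma slot_zero {k : ℕ} (π : Equiv.Perm (Fin k)) (r : Fin k) : slot π (r, 0) = Sum.inl (π r) := rfl

lemma slot_one {k : ℕ} (π : Equiv.Perm (Fin k)) (r : Fin k) : slot π (r, 1) = Sum.inr r := rfl

/-- the contraction form as a block form -/
lemma traceForm_eq {m : ℕ} {n : Fin m → ℕ} (B : Mats n Ω) {k N : ℕ}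
    (τ : Fin k ⊕ Fin k ≃ Fin N) (π : Fin m → Equiv.Perm (Fin k)) (z z' : Fin k → Idx n → Ω) :
    ∑ W : Fin k → Idx n, (∏ r, z r (W r)) * ∏ r, act B (z' r) (fun t => W (π t r) t) =
      blockForm (s := fun _ => 2) (e := fun _ => k) (fun t v => B t (v 0) (v 1))
        (fun t => (slot (π t)).trans τ) (fun j => Sum.elim z z' (τ.symm j)) := by
  classical
  unfold blockForm
  rw [← Equiv.sum_comp ((Equiv.sumArrowEquivProdArrow (Fin k) (Fin k) (Idx n)).symm.trans
    (Equiv.arrowCongr τ (Equiv.refl (Idx n)))), Fintype.sum_prod_type]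
  refine sum_congr rfl fun W _ => ?_
  simp only [act_apply]
  rw [prod_univ_sum, Fintype.piFinset_univ, mul_sum]
  refine sum_congr rfl fun W' _ => ?_
  have h1 : ∀ j, ((Equiv.sumArrowEquivProdArrow (Fin k) (Fin k) (Idx n)).symm.trans
      (Equiv.arrowCongr τ (Equiv.refl (Idx n)))) (W, W') j = Sum.elim W W' (τ.symm j) := by
    intro j
    rfl
  simp only [h1, Equiv.trans_apply, slot_zero, slot_one, Equiv.symm_apply_apply, Sum.elim_inl,
    Sum.elim_inr]
  rw [← Equiv.prod_comp τ]
  simp only [Equiv.symm_apply_apply]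
  rw [Fintype.prod_sum_type]
  simp only [Sum.elim_inl, Sum.elim_inr]
  rw [prod_mul_distrib, prod_comm]
  ring

/-- PIECE ISO-F -/
theorem traceZero_tens {X Y : SmProjVar k} (hX : P.DP X) {m : ℕ} {V : Fin m → SmProjVar k}
    {n : Fin m → ℕ} (e : ∀ t, Fin (n t) → P.H (V t)) (B : Mats n Ω)
    (he : ∀ t, Piece P (V t) (n t) (e t) (B t)) (f : ∀ t, Y.toOver ⟶ (V t).toOver) :
    TraceZero (tens P X Y (fun t b => P.pull (f t) (e t b)) : Set (Idx n → Ω))
      (act B '' (tens P X Y (fun t b => P.pull (f t) (e t b)) : Set (Idx n → Ω))) := by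
  intro l hl π z y hz hy
  choose z' hz' hzy using hy
  have h1 : ∀ r, y r = act B (z' r) := fun r => (hzy r).symm
  simp only [h1]
  obtain ⟨N, hN⟩ : ∃ N, l + l = N + 1 := ⟨l + l - 1, by omega⟩
  let τ : Fin l ⊕ Fin l ≃ Fin (N + 1) := finSumFinEquiv.trans (finCongr hN)
  rw [traceForm_eq B τ π z z', ← blockMulti_apply]
  refine multilinear_span _ (P.wordSet X Y (fun t b => P.pull (f t) (e t b))) ?_ _ ?_
  · intro z hz
    rw [blockMulti_apply]
    refine blockForm_eq_zero_of _ _ (fun t => ?_) _ (fun r hr => ?_) z hz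
    · rcases (he t).parity with h | h
      · exact .inl fun b => P.pull_ev _ _ (h b)
      · exact .inr fun b => P.pull_od _ _ (h b)
    · refine hX N _ (contr_rad ?_ (mixPow_rad N r hr))
      refine list_prod_alg fun t => list_prod_alg fun i => ?_
      rw [sum_fin_two]
      have h2 := P.pull_mem (lift
        (Y.projPow N (((slot (π t)).trans τ) (i, 0)) ≫ f t)
        (Y.projPow N (((slot (π t)).trans τ) (i, 1)) ≫ f t)) _ (he t).alg
      convert h2 using 1
      rw [map_sum (P.pull _)]
      refine sum_congr rfl fun a _ => ?_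
      rw [map_sum (P.pull _)]
      refine sum_congr rfl fun b _ => ?_
      rw [map_smul (P.pull _)]
      congr 1
      unfold SPre.ext
      rw [map_mul (P.pull _), pull_pull, pull_pull, lift_fst, lift_snd, List.ofFn_succ,
        List.ofFn_succ, List.ofFn_zero, List.prod_cons, List.prod_cons, List.prod_nil, mul_one,
        pull_pull, pull_pull]
      rfl
  · intro j
    change Sum.elim z z' (τ.symm j) ∈ tens P X Y _
    rcases τ.symm j with r | r
    · exact hz r
    · exact hz' r

end Pool.Agent.Helper16.Iso
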